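import Pool.Agent.L7h58.BP.Stm

set_option autoImplicit false

/-!
# Project BP, part PRC: primes in `(L, 16 L]`
-/

namespace Pool.Agent.L7h79.BP

open Finset Pool.Agent.L7h58.BP Chebyshev

theorem theta_diff (L : ℕ) : theta ((16 * L : ℕ) : ℝ) - theta (L : ℝ) ≤
    (((Ioc L (16 * L)).filter Nat.Prime).card : ℝ) * Real.log ((16 * L : ℕ) : ℝ) := by
  have h1 : theta ((16 * L : ℕ) : ℝ) - theta (L : ℝ) =
      ∑ p ∈ (Ioc L (16 * L)).filter Nat.Prime, Real.log p := by
    unfold theta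
    rw [Nat.floor_natCast, Nat.floor_natCast]
    have h2 : (Ioc 0 (16 * L)).filter Nat.Prime =
        (Ioc 0 L).filter Nat.Prime ∪ (Ioc L (16 * L)).filter Nat.Prime := by
      ext p
      simp only [mem_filter, mem_union, mem_Ioc]
      constructor
      · rintro ⟨⟨a, b⟩, c⟩
        rcases le_or_gt p L with h | h
        · exact Or.inl ⟨⟨a, h⟩, c⟩
        · exact Or.inr ⟨⟨h, b⟩, c⟩
      · rintro (⟨⟨a, b⟩, c⟩ | ⟨⟨a, b⟩, c⟩)
        · exact ⟨⟨a, by omega⟩, c⟩
        · exact ⟨⟨by omega, b⟩, c⟩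
    rw [h2, Finset.sum_union]
    · ring
    · rw [Finset.disjoint_left]
      intro p hp hq
      simp only [mem_filter, mem_Ioc] at hp hq
      omega
  rw [h1, ← nsmul_eq_mul]
  refine Finset.sum_le_card_nsmul _ _ _ fun p hp => ?_
  simp only [mem_filter, mem_Ioc] at hp
  have h0 : 0 < p := hp.2.pos
  exact Real.log_le_log (by exact_mod_cast h0) (by exact_mod_cast hp.1.2)

theorem s_PRC : S_PRC := by
  refine ⟨1 / 2, by norm_num, ?_⟩
  filter_upwards [Filter.eventually_ge_atTop 65536] with L hL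
  obtain ⟨s, hs⟩ : ∃ s : ℝ, s = Real.sqrt (Real.sqrt L) := ⟨_, rfl⟩
  have hLR : (65536 : ℝ) ≤ (L : ℝ) := by exact_mod_cast hL
  have hL0 : (0 : ℝ) ≤ (L : ℝ) := Nat.cast_nonneg _
  have hs2 : s ^ 2 = Real.sqrt L := by
    rw [hs, Real.sq_sqrt (Real.sqrt_nonneg _)]
  have hs4 : s ^ 4 = L := by
    have : s ^ 4 = (s ^ 2) ^ 2 := by ring
    rw [this, hs2, Real.sq_sqrt hL0]
  have hs0 : 0 ≤ s := by rw [hs]; exact Real.sqrt_nonneg _
  have hs16 : 16 ≤ s := by
    by_contra h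
    push Not at h
    have h1 : s ^ 4 < 16 ^ 4 := pow_lt_pow_left₀ h hs0 (by norm_num)
    rw [hs4] at h1
    norm_num at h1
    linarith
  have h16 : ((16 * L : ℕ) : ℝ) = (2 * s) ^ 4 := by
    push_cast
    rw [mul_pow, hs4]
    norm_num
  have hsq : Real.sqrt ((16 * L : ℕ) : ℝ) = 4 * s ^ 2 := by
    rw [h16]
    have : (2 * s) ^ 4 = (4 * s ^ 2) ^ 2 := by ring
    rw [this, Real.sqrt_sq (by positivity)]
  have hlog : Real.log ((16 * L : ℕ) : ℝ) ≤ 8 * s := by
    rw [h16, Real.log_pow]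
    have := Real.log_le_sub_one_of_pos (show (0 : ℝ) < 2 * s by linarith)
    push_cast
    linarith
  have hlog1 : Real.log (((16 * L : ℕ) : ℝ) + 1) ≤ 8 * s := by
    have h1 : ((16 * L : ℕ) : ℝ) + 1 ≤ (2 * s + 1) ^ 4 := by
      rw [h16]
      nlinarith [pow_pos (show (0 : ℝ) < s by linarith) 2, pow_pos (show (0 : ℝ) < s by linarith) 3]
    have h2 := Real.log_le_log (by positivity) h1
    rw [Real.log_pow] at h2
    have := Real.log_le_sub_one_of_pos (show (0 : ℝ) < 2 * s + 1 by linarith)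
    push_cast at h2
    push_cast
    linarith
  have hge := theta_ge (16 * L)
  have hle : theta (L : ℝ) ≤ Real.log 4 * L := theta_le_log4_mul_x hL0
  have h4 : Real.log 4 = 2 * Real.log 2 := by
    have : (4 : ℝ) = 2 ^ 2 := by norm_num
    rw [this, Real.log_pow]
    norm_num
  have hl2 := Real.log_two_gt_d9
  have hd := theta_diff L
  have hs3 : s ^ 3 * 16 ≤ s ^ 4 := by
    have : 0 ≤ s ^ 3 * (s - 16) := mul_nonneg (by positivity) (by linarith)
    nlinarith
  have h5 : 2 * Real.sqrt ((16 * L : ℕ) : ℝ) * Real.log ((16 * L : ℕ) : ℝ) ≤ 4 * L := by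
    rw [hsq]
    calc 2 * (4 * s ^ 2) * Real.log ((16 * L : ℕ) : ℝ) ≤ 2 * (4 * s ^ 2) * (8 * s) :=
          mul_le_mul_of_nonneg_left hlog (by positivity)
      _ = 64 * s ^ 3 := by ring
      _ ≤ 4 * s ^ 4 := by linarith
      _ = 4 * L := by rw [hs4]
  have h6 : 8 * s ≤ L := by
    rw [← hs4]
    have h7 : s * 8 ≤ s * s ^ 3 := by
      apply mul_le_mul_of_nonneg_left _ hs0
      have : (16 : ℝ) ^ 3 ≤ s ^ 3 := pow_le_pow_left₀ (by norm_num) hs16 3
      norm_num at this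
      linarith
    nlinarith
  have h7 : (L : ℝ) ≤ theta ((16 * L : ℕ) : ℝ) - theta (L : ℝ) := by
    have h8 : ((16 * L : ℕ) : ℝ) * Real.log 2 = 16 * L * Real.log 2 := by push_cast; ring
    rw [h8] at hge
    rw [h4] at hle
    have h9 : (L : ℝ) * (1 / 2) ≤ L * Real.log 2 := mul_le_mul_of_nonneg_left (by linarith) hL0
    linarith
  have hlogL : 0 < Real.log L := Real.log_pos (by linarith)
  have hlog2 : Real.log ((16 * L : ℕ) : ℝ) ≤ 2 * Real.log L := by
    have h8 : Real.log ((L : ℝ) ^ 2) = 2 * Real.log L := by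
      rw [Real.log_pow]
      norm_num
    rw [← h8]
    apply Real.log_le_log (by push_cast; linarith)
    push_cast
    nlinarith
  have h10 : (L : ℝ) ≤ (((Ioc L (16 * L)).filter Nat.Prime).card : ℝ) * (2 * Real.log L) :=
    h7.trans (hd.trans (mul_le_mul_of_nonneg_left hlog2 (Nat.cast_nonneg _)))
  rw [div_le_iff₀ hlogL]
  linarith

end Pool.Agent.L7h79.BP
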