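import Pool.Agent.L7h58.BP.Stm
import Pool.Agent.Helper112.LS

set_option autoImplicit false

/-!
# Project BP, part DLS: the dual large sieve for Farey fractions
-/

namespace Pool.Agent.L7h79.BP

open Finset Pool.Agent.L7h58.BP Pool.Agent.Helper112

theorem ee_int (z : ℤ) : ee z = 1 := ls_ee_int z

theorem sep {Q : ℕ} {x y : ℚ} (hx0 : 0 ≤ x) (hx1 : x < 1) (hy0 : 0 ≤ y) (hy1 : y < 1)
    (hx : x.den ≤ Q) (hy : y.den ≤ Q) (hne : x ≠ y) : lsSep (Q ^ 2) ((y : ℝ) - (x : ℝ)) := by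
  have hxn : 0 ≤ x.num := Rat.num_nonneg.2 hx0
  have hyn : 0 ≤ y.num := Rat.num_nonneg.2 hy0
  have hxl : x.num < x.den := by
    have h1 := Rat.lt_iff x 1
    have := (h1.1 hx1)
    simpa using this
  have hyl : y.num < y.den := by
    have h1 := Rat.lt_iff y 1
    have := (h1.1 hy1)
    simpa using this
  have h := ls_sep_of_int Q x.den y.den x.den_pos y.den_pos hx hy x.num.toNat y.num.toNat
    (by omega) (by omega) (by
      have h1 := x.reduced
      have h2 : x.num.toNat = x.num.natAbs := by omega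
      rwa [h2]) (by
      have h1 := y.reduced
      have h2 : y.num.toNat = y.num.natAbs := by omega
      rwa [h2]) (by
      rintro ⟨h1, h2⟩
      apply hne
      apply Rat.ext
      · omega
      · exact h1)
  have ex : (x : ℝ) = (x.num.toNat : ℝ) / x.den := by
    rw [Rat.cast_def]
    congr 1
    have : ((x.num.toNat : ℤ) : ℝ) = (x.num : ℝ) := by rw [Int.toNat_of_nonneg hxn]
    exact_mod_cast this.symm
  have ey : (y : ℝ) = (y.num.toNat : ℝ) / y.den := by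
    rw [Rat.cast_def]
    congr 1
    have : ((y.num.toNat : ℤ) : ℝ) = (y.num : ℝ) := by rw [Int.toNat_of_nonneg hyn]
    exact_mod_cast this.symm
  rw [ex, ey]
  exact h

theorem s_DLS : S_DLS := by
  refine ⟨12, by norm_num, ?_⟩
  intro N Q S c hQ hS
  have hsep : ∀ r ∈ S, ∀ s ∈ S, r ≠ s → lsSep (Q ^ 2) (((s : ℚ) : ℝ) - ((r : ℚ) : ℝ)) := by
    intro r hr s hs hne
    exact sep (hS r hr).1 (hS r hr).2.1 (hS s hs).1 (hS s hs).2.1 (hS r hr).2.2 (hS s hs).2.2 hne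
  have h := ls_dual S (fun x : ℚ => (x : ℝ)) (Q ^ 2) (N + 1) (Nat.one_le_pow _ _ hQ) hsep
    (fun x => c x * ee (-(x : ℝ)))
  have h1 : ∑ x ∈ S, ‖c x * ee (-(x : ℝ))‖ ^ 2 = ∑ x ∈ S, ‖c x‖ ^ 2 := by
    refine Finset.sum_congr rfl fun x _ => ?_
    rw [norm_mul, ls_norm_ee, mul_one]
  have h2 : ∑ n ∈ Icc 1 (N + 1), ‖∑ x ∈ S, c x * ee (-(x : ℝ)) * ee ((n : ℝ) * (x : ℝ))‖ ^ 2 =
      ∑ n ∈ range (N + 1),
        ‖∑ x ∈ S, c x * Complex.exp (2 * Real.pi * Complex.I * (((x : ℝ) * n : ℝ) : ℂ))‖ ^ 2 := by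
    have e1 : Icc 1 (N + 1) = (range (N + 1)).image (fun n => n + 1) := by
      ext n
      simp only [mem_Icc, mem_image, mem_range]
      constructor
      · intro h
        exact ⟨n - 1, by omega, by omega⟩
      · rintro ⟨m, hm, rfl⟩
        omega
    rw [e1, Finset.sum_image (by intro a _ b _ hab; simpa using hab)]
    refine Finset.sum_congr rfl fun n _ => ?_
    congr 2
    refine Finset.sum_congr rfl fun x _ => ?_
    rw [mul_assoc, ← ls_ee_add]
    congr 1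
    unfold ee
    congr 1
    push_cast
    ring
  have h3 : ∑ n ∈ range (N + 1),
      ‖∑ x ∈ S, c x * Complex.exp (2 * Real.pi * Complex.I * (((x : ℝ) * n : ℝ) : ℂ))‖ ^ 2 ≤
      6 * (((N + 1 : ℕ) : ℝ) + ((Q ^ 2 : ℕ) : ℝ)) * ∑ x ∈ S, ‖c x‖ ^ 2 := by
    rw [← h1, ← h2]
    exact h
  refine h3.trans (mul_le_mul_of_nonneg_right ?_ (Finset.sum_nonneg fun x _ => by positivity))
  have hQ' : (1 : ℝ) ≤ (Q : ℝ) ^ 2 := one_le_pow₀ (by exact_mod_cast hQ)
  have hN : (0 : ℝ) ≤ N := Nat.cast_nonneg _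
  push_cast
  linarith

end Pool.Agent.L7h79.BP
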